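import Pool.Agent.Helper61.Tri.Goals2

/-!
Packet FEVEN of MP_5b3c48_co: final count for the even kinds.
-/

set_option autoImplicit false

open Finset SimpleGraph

namespace Pool.Agent.Helper32.Tri

open Pool.Agent.Helper61.Tri

noncomputable section

open scoped Classical

theorem arith_max (s a b D m : ℕ) (hs : 2 ≤ s) (hab : a + b = m) (h1 : a ≤ b) (h2 : b ≤ a + 1)
    (hD : D ≤ m) : s * (D * (m - D)) + D ≤ s * (a * b) + b ∧
      (s * (D * (m - D)) + D = s * (a * b) + b → D = b) := by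
  obtain ⟨E, hE⟩ := Nat.exists_eq_add_of_le hD
  have hE' : m - D = E := by omega
  rw [hE']
  have key : ∀ t : ℤ, (D : ℤ) = b + t → t ≠ 0 →
      (s : ℤ) * (D * E) + D < (s : ℤ) * (a * b) + b := by
    intro t ht ht0
    have hE2 : (E : ℤ) = a - t := by
      have : (m : ℤ) = D + E := by exact_mod_cast hE
      have h3 : (a : ℤ) + b = m := by exact_mod_cast hab
      linarith
    rw [ht, hE2]
    have hs' : (2 : ℤ) ≤ s := by exact_mod_cast hs
    have ht2 : t ≤ t ^ 2 := by
      rcases le_or_gt t 0 with h | h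
      · nlinarith [sq_nonneg t]
      · nlinarith
    have ht2' : - t ≤ t ^ 2 := by
      rcases le_or_gt t 0 with h | h
      · have : t ≤ -1 := by omega
        nlinarith
      · nlinarith [sq_nonneg t]
    have ht3 : 1 ≤ t ^ 2 := by
      have : 0 < t ^ 2 := by positivity
      omega
    have hba : (b : ℤ) = a ∨ (b : ℤ) = a + 1 := by omega
    rcases hba with h | h
    · rw [h]
      nlinarith [mul_le_mul_of_nonneg_right hs' (sq_nonneg t)]
    · rw [h]
      -- need t (1 - s) - s t^2 < 0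
      have e : (s : ℤ) * (a * (a + 1)) + (a + 1) -
          ((s : ℤ) * ((a + 1 + t) * (a - t)) + (a + 1 + t)) = s * (t ^ 2 + t) - t := by ring
      have h4 : 0 ≤ t ^ 2 + t := by linarith
      have h5 : 2 * (t ^ 2 + t) ≤ s * (t ^ 2 + t) := mul_le_mul_of_nonneg_right hs' h4
      have h6 : 0 < 2 * (t ^ 2 + t) - t := by nlinarith
      linarith
  by_cases hDb : D = b
  · subst hDb
    have : E = a := by omega
    rw [this, mul_comm D a]
    exact ⟨le_rfl, fun _ => rfl⟩
  · have h := key ((D : ℤ) - b) (by ring) (by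
      intro h0
      exact hDb (by omega))
    have h' : s * (D * E) + D < s * (a * b) + b := by exact_mod_cast h
    exact ⟨h'.le, fun h0 => absurd h0 h'.ne⟩

theorem six_feven (s n : ℕ) (hs : 2 ≤ s) :
    6 * feven s n = 6 * (s * (((n - s) / 2) * ((n - s + 1) / 2)) + (n - s + 1) / 2) +
      6 * s + 3 * s * (s - 1) * (n - s) + s * (s - 1) * (s - 2) := by
  obtain ⟨t, rfl⟩ := Nat.exists_eq_add_of_le hs
  have e1 : 2 + t - 1 = t + 1 := by omega
  have e2 : 2 + t - 2 = t := by omega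
  unfold feven fodd
  rw [e1, e2]
  have h2 : 2 ∣ (2 + t) * (t + 1) := by
    rw [mul_comm, show (2 + t) = (t + 1) + 1 by ring]
    exact (Nat.even_mul_succ_self _).two_dvd
  have h6 : 6 ∣ (2 + t) * (t + 1) * t := by
    apply Nat.dvd_of_mod_eq_zero
    have hlt := Nat.mod_lt t (by norm_num : 0 < 6)
    have : ((2 + t) * (t + 1) * t) % 6 = ((2 + t % 6) * (t % 6 + 1) * (t % 6)) % 6 := by
      simp [Nat.mul_mod, Nat.add_mod]
    rw [this]
    generalize t % 6 = r at hlt
    interval_cases r <;> rfl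
  obtain ⟨c, hc⟩ := h2
  obtain ⟨d, hd⟩ := h6
  rw [hd, hc, Nat.mul_div_cancel_left _ (by norm_num), Nat.mul_div_cancel_left _ (by norm_num)]
  have h3 : 3 * (2 + t) * (t + 1) * (n - (2 + t)) = 6 * (c * (n - (2 + t))) := by
    have : 3 * (2 + t) * (t + 1) = 3 * (2 * c) := by rw [← hc]; ring
    rw [this]; ring
  rw [h3]
  ring

variable {V : Type} [Fintype V]

theorem exists_max (J : SimpleGraph V) (W : Finset V) (hW : W.Nonempty)
    (hJ : ∀ u v, J.Adj u v → u ∈ W) :
    ∃ z ∈ W, ∀ v, (nb J v).card ≤ (nb J z).card := by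
  obtain ⟨z, hz, hmax⟩ := W.exists_max_image (fun v => (nb J v).card) hW
  refine ⟨z, hz, fun v => ?_⟩
  by_cases hv : v ∈ W
  · exact hmax v hv
  · have : nb J v = ∅ := by
      apply Finset.eq_empty_of_forall_notMem
      intro w hw
      simp only [nb, mem_filter, mem_univ, true_and] at hw
      exact hv (hJ _ _ hw)
    simp [this]

theorem quarter (D m : ℕ) (h : D ≤ m) : 4 * (D * (m - D)) ≤ m * m := by
  obtain ⟨E, rfl⟩ := Nat.exists_eq_add_of_le h
  rw [Nat.add_sub_cancel_left]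
  zify
  nlinarith [sq_nonneg ((D : ℤ) - E)]

theorem oe_tf (hT : TFmax) (J : SimpleGraph V) (W : Finset V) (hW : W.Nonempty) (hJ0 : TF J)
    (hJ : ∀ u v, J.Adj u v → u ∈ W) : 2 * (oe J).card ≤ W.card * W.card := by
  obtain ⟨z, hz, hmax⟩ := exists_max J W hW hJ
  obtain ⟨h1, h2, -⟩ := hT V J W hJ0 hJ z hz hmax
  have := quarter _ _ h1
  omega

/-- deleting edges -/
def del (H : SimpleGraph V) (R : V → V → Prop) (hR : ∀ u v, R u v → R v u) : SimpleGraph V where
  Adj u v := H.Adj u v ∧ ¬ R u v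
  symm := ⟨fun u v h => ⟨h.1.symm, fun h' => h.2 (hR v u h')⟩⟩
  loopless := ⟨fun _ h => H.loopless.irrefl _ h.1⟩

omit [Fintype V] in
theorem clique3 {H : SimpleGraph V} {u v w : V} (h1 : H.Adj u v) (h2 : H.Adj u w)
    (h3 : H.Adj v w) : H.IsNClique 3 ({u, v, w} : Finset V) := by
  rw [SimpleGraph.is3Clique_triple_iff]
  exact ⟨h1, h2, h3⟩

theorem mainB (hT : TFmax) (H : SimpleGraph V) (W : Finset V) (hW : W.Nonempty)
    (hH : ∀ u v, H.Adj u v → u ∈ W) (Q : Finset V) (hQ : Q.card = 4)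
    (hS : ∀ S : Finset V, H.IsNClique 3 S → S ⊆ Q) :
    2 * (oe H).card ≤ W.card * W.card + 32 ∧ (ot H).card ≤ 64 := by
  set J := del H (fun u v => u ∈ Q ∧ v ∈ Q) (fun u v h => ⟨h.2, h.1⟩) with hJdef
  have hJH : ∀ u v, J.Adj u v → H.Adj u v := fun u v h => h.1
  have hTF : TF J := by
    intro u v w h1 h2 h3
    have := hS _ (clique3 (hJH _ _ h1) (hJH _ _ h2) (hJH _ _ h3))
    exact h1.2 ⟨this (by simp), this (by simp)⟩
  have h1 := oe_tf hT J W hW hTF (fun u v h => hH u v (hJH u v h))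
  have h2 : oe H ⊆ oe J ∪ Q ×ˢ Q := by
    intro x hx
    simp only [oe, mem_filter, mem_univ, true_and] at hx
    by_cases hq : x.1 ∈ Q ∧ x.2 ∈ Q
    · exact mem_union_right _ (mem_product.2 hq)
    · apply mem_union_left
      simp only [oe, mem_filter, mem_univ, true_and]
      exact ⟨hx, hq⟩
  have h3 := (card_le_card h2).trans (card_union_le _ _)
  rw [card_product, hQ] at h3
  have h4 : ot H ⊆ Q ×ˢ (Q ×ˢ Q) := by
    intro x hx
    simp only [ot, mem_filter, mem_univ, true_and] at hx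
    have := hS _ (clique3 hx.1 hx.2.1 hx.2.2)
    exact mem_product.2 ⟨this (by simp), mem_product.2 ⟨this (by simp), this (by simp)⟩⟩
  have h5 := card_le_card h4
  rw [card_product, card_product, hQ] at h5
  constructor
  · omega
  · omega

theorem ot_six (H : SimpleGraph V) (p q : V) (hpq : p ≠ q)
    (hS : ∀ S : Finset V, H.IsNClique 3 S → p ∈ S ∧ q ∈ S) :
    (ot H).card ≤ 6 * (cn H p q).card := by
  have hsub : ot H ⊆ (cn H p q).image (fun w => (p, q, w)) ∪ (cn H p q).image (fun w => (q, p, w)) ∪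
      (cn H p q).image (fun w => (p, w, q)) ∪ (cn H p q).image (fun w => (q, w, p)) ∪
      (cn H p q).image (fun w => (w, p, q)) ∪ (cn H p q).image (fun w => (w, q, p)) := by
    rintro ⟨a, b, c⟩ hx
    simp only [ot, mem_filter, mem_univ, true_and] at hx
    obtain ⟨hab, hac, hbc⟩ := hx
    obtain ⟨hp, hq⟩ := hS _ (clique3 hab hac hbc)
    simp only [mem_insert, mem_singleton] at hp hq
    simp only [mem_union, mem_image, cn, mem_filter, mem_univ, true_and]
    rcases hp with rfl | rfl | rfl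
    · rcases hq with h | rfl | rfl
      · exact absurd h.symm hpq
      · exact Or.inl (Or.inl (Or.inl (Or.inl (Or.inl ⟨c, ⟨hac, hbc⟩, rfl⟩))))
      · exact Or.inl (Or.inl (Or.inl (Or.inr ⟨b, ⟨hab, hbc.symm⟩, rfl⟩)))
    · rcases hq with rfl | h | rfl
      · exact Or.inl (Or.inl (Or.inl (Or.inl (Or.inr ⟨c, ⟨hbc, hac⟩, rfl⟩))))
      · exact absurd h.symm hpq
      · exact Or.inl (Or.inr ⟨a, ⟨hab.symm, hac.symm⟩, rfl⟩)
    · rcases hq with rfl | rfl | h
      · exact Or.inl (Or.inl (Or.inr ⟨b, ⟨hbc.symm, hab⟩, rfl⟩))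
      · exact Or.inr ⟨a, ⟨hac.symm, hab.symm⟩, rfl⟩
      · exact absurd h.symm hpq
  have h1 := card_le_card hsub
  have c1 := card_image_le (s := cn H p q) (f := fun w => (p, q, w))
  have c2 := card_image_le (s := cn H p q) (f := fun w => (q, p, w))
  have c3 := card_image_le (s := cn H p q) (f := fun w => (p, w, q))
  have c4 := card_image_le (s := cn H p q) (f := fun w => (q, w, p))
  have c5 := card_image_le (s := cn H p q) (f := fun w => (w, p, q))
  have c6 := card_image_le (s := cn H p q) (f := fun w => (w, q, p))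
  have u1 := card_union_le ((cn H p q).image (fun w => (p, q, w)) ∪
    (cn H p q).image (fun w => (q, p, w)) ∪
      (cn H p q).image (fun w => (p, w, q)) ∪ (cn H p q).image (fun w => (q, w, p)) ∪
      (cn H p q).image (fun w => (w, p, q))) ((cn H p q).image (fun w => (w, q, p)))
  have u2 := card_union_le ((cn H p q).image (fun w => (p, q, w)) ∪
    (cn H p q).image (fun w => (q, p, w)) ∪
      (cn H p q).image (fun w => (p, w, q)) ∪ (cn H p q).image (fun w => (q, w, p)))
      ((cn H p q).image (fun w => (w, p, q)))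
  have u3 := card_union_le ((cn H p q).image (fun w => (p, q, w)) ∪
    (cn H p q).image (fun w => (q, p, w)) ∪
      (cn H p q).image (fun w => (p, w, q))) ((cn H p q).image (fun w => (q, w, p)))
  have u4 := card_union_le ((cn H p q).image (fun w => (p, q, w)) ∪
    (cn H p q).image (fun w => (q, p, w))) ((cn H p q).image (fun w => (p, w, q)))
  have u5 := card_union_le ((cn H p q).image (fun w => (p, q, w)))
    ((cn H p q).image (fun w => (q, p, w)))
  omega

/-- case (A) -/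
theorem mainA (hT : TFmax) (H : SimpleGraph V) (W : Finset V) (hH : ∀ u v, H.Adj u v → u ∈ W)
    (p q : V) (hpq : H.Adj p q) (hS : ∀ S : Finset V, H.IsNClique 3 S → p ∈ S ∧ q ∈ S) :
    ∃ D ≤ W.card, (ot H).card ≤ 6 * D ∧ (oe H).card ≤ 2 * (D * (W.card - D)) + 2 ∧
      ((ot H).card = 6 * D → (oe H).card = 2 * (D * (W.card - D)) + 2 →
        ∃ B ⊆ W, B.card = D ∧
          (∀ u ∈ W, ∀ v ∈ W, H.Adj u v ↔ ((u ∈ B ∧ v ∉ B) ∨ (u ∉ B ∧ v ∈ B) ∨
            (u = p ∧ v = q) ∨ (u = q ∧ v = p))) ∧ ((p ∉ B ∧ q ∉ B) ∨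
              (p ∈ B ∧ q ∈ B ∧ (W \ B).card = D))) := by
  have hne : p ≠ q := hpq.ne
  set J := del H (fun u v => (u = p ∧ v = q) ∨ (u = q ∧ v = p)) (fun u v h => by tauto) with hJdef
  have hJH : ∀ u v, J.Adj u v → H.Adj u v := fun u v h => h.1
  have hJW : ∀ u v, J.Adj u v → u ∈ W := fun u v h => hH u v (hJH u v h)
  have hTF : TF J := by
    intro u v w h1 h2 h3
    obtain ⟨hp, hq⟩ := hS _ (clique3 (hJH _ _ h1) (hJH _ _ h2) (hJH _ _ h3))
    simp only [mem_insert, mem_singleton] at hp hq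
    have k1 := h1.2
    have k2 := h2.2
    have k3 := h3.2
    rcases hp with rfl | rfl | rfl <;> rcases hq with h | h | h <;> subst h <;> simp_all
  have hpW : p ∈ W := hH p q hpq
  have hqW : q ∈ W := hH q p hpq.symm
  obtain ⟨z, hz, hmax⟩ := exists_max J W ⟨p, hpW⟩ hJW
  obtain ⟨h1, h2, h3⟩ := hT V J W hTF hJW z hz hmax
  have hcn : cn H p q ⊆ nb J p := by
    intro w hw
    simp only [cn, nb, mem_filter, mem_univ, true_and] at hw ⊢
    refine ⟨hw.1, ?_⟩
    rintro (⟨-, h⟩ | ⟨h, -⟩)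
    · subst h
      exact hw.2.ne rfl
    · exact hne h
  have hcnc := (card_le_card hcn).trans (hmax p)
  have h6 := ot_six H p q hne hS
  have hoe : oe H ⊆ oe J ∪ {(p, q), (q, p)} := by
    rintro ⟨a, b⟩ hx
    simp only [oe, mem_filter, mem_univ, true_and] at hx
    by_cases hq : (a = p ∧ b = q) ∨ (a = q ∧ b = p)
    · apply mem_union_right
      simpa using hq
    · apply mem_union_left
      simp only [oe, mem_filter, mem_univ, true_and]
      exact ⟨hx, hq⟩
  have hoec := (card_le_card hoe).trans (card_union_le _ _)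
  have h2c : ({(p, q), (q, p)} : Finset (V × V)).card ≤ 2 := card_le_two
  refine ⟨(nb J z).card, h1, by omega, by omega, fun e1 e2 => ?_⟩
  have hJe : (oe J).card = 2 * ((nb J z).card * (W.card - (nb J z).card)) := by omega
  have hstr := h3 hJe
  have hBW : nb J z ⊆ W := by
    intro w hw
    simp only [nb, mem_filter, mem_univ, true_and] at hw
    exact hJW _ _ hw.symm
  have hcard : (cn H p q).card = (nb J z).card := by omega
  have hJpq : ¬ J.Adj p q := fun h => h.2 (Or.inl ⟨rfl, rfl⟩)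
  refine ⟨nb J z, hBW, rfl, ?_, ?_⟩
  · intro u hu v hv
    have hs := hstr u hu v hv
    constructor
    · intro h
      by_cases hq : (u = p ∧ v = q) ∨ (u = q ∧ v = p)
      · tauto
      · have : J.Adj u v := ⟨h, hq⟩
        have := hs.1 this
        tauto
    · rintro (h | h | ⟨rfl, rfl⟩ | ⟨rfl, rfl⟩)
      · exact hJH _ _ (hs.2 (Or.inl h))
      · exact hJH _ _ (hs.2 (Or.inr h))
      · exact hpq
      · exact hpq.symm
  · have hs := hstr p hpW q hqW
    by_cases hpB : p ∈ nb J z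
    · have hqB : q ∈ nb J z := by
        by_contra hqB
        exact hJpq (hs.2 (Or.inl ⟨hpB, hqB⟩))
      right
      refine ⟨hpB, hqB, ?_⟩
      have hsub : cn H p q ⊆ W \ nb J z := by
        intro w hw
        have hw' := hcn hw
        simp only [nb, mem_filter, mem_univ, true_and] at hw'
        have hwW : w ∈ W := hJW _ _ hw'.symm
        have := (hstr p hpW w hwW).1 hw'
        rw [mem_sdiff]
        tauto
      have hsub2 : W \ nb J z ⊆ nb J p := by
        intro w hw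
        rw [mem_sdiff] at hw
        have := (hstr p hpW w hw.1).2 (Or.inl ⟨hpB, hw.2⟩)
        simpa [nb] using this
      have c1 := card_le_card hsub
      have c2 := card_le_card hsub2
      have c3 := hmax p
      omega
    · left
      refine ⟨hpB, fun hqB => hJpq (hs.2 (Or.inr ⟨hpB, hqB⟩))⟩

omit [Fintype V] in
/-- two triangles share exactly two vertices -/
theorem inter_two {H : SimpleGraph V}
    (h1 : ∀ v a a' b b', H.Adj v a → H.Adj v a' → H.Adj a a' → H.Adj v b → H.Adj v b' →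
      H.Adj b b' → a ≠ b → a ≠ b' → a' ≠ b → a' ≠ b' → False)
    (h2 : ∀ p1 q1 r1 p2 q2 r2, H.Adj p1 q1 → H.Adj p1 r1 → H.Adj q1 r1 → H.Adj p2 q2 →
      H.Adj p2 r2 → H.Adj q2 r2 → Disjoint ({p1, q1, r1} : Finset V) {p2, q2, r2} → False)
    (S T : Finset V) (hS : H.IsNClique 3 S) (hT : H.IsNClique 3 T) (hST : S ≠ T) :
    (S ∩ T).card = 2 := by
  have hSc := hS.card_eq
  have hTc := hT.card_eq
  have hle : (S ∩ T).card ≤ 3 := by
    rw [← hSc]; exact card_le_card inter_subset_left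
  have h3 : (S ∩ T).card ≠ 3 := by
    intro h
    have e1 : S ∩ T = S := eq_of_subset_of_card_le inter_subset_left (by omega)
    have e2 : S ∩ T = T := eq_of_subset_of_card_le inter_subset_right (by omega)
    exact hST (e1.symm.trans e2)
  have h0 : (S ∩ T).card ≠ 0 := by
    intro h
    rw [card_eq_zero, ← disjoint_iff_inter_eq_empty] at h
    obtain ⟨a, b, c, hab, hac, hbc, rfl⟩ := SimpleGraph.is3Clique_iff.1 hS
    obtain ⟨a', b', c', hab', hac', hbc', rfl⟩ := SimpleGraph.is3Clique_iff.1 hT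
    exact h2 a b c a' b' c' hab hac hbc hab' hac' hbc' h
  have h1' : (S ∩ T).card ≠ 1 := by
    intro h
    obtain ⟨v, hv⟩ := card_eq_one.1 h
    have hvS : v ∈ S := (mem_inter.1 (hv ▸ mem_singleton_self v)).1
    have hvT : v ∈ T := (mem_inter.1 (hv ▸ mem_singleton_self v)).2
    have huniq : ∀ w, w ∈ S → w ∈ T → w = v := fun w h1 h2 => by
      have : w ∈ S ∩ T := mem_inter.2 ⟨h1, h2⟩
      rw [hv] at this
      exact mem_singleton.1 this
    have aux : ∀ R : Finset V, H.IsNClique 3 R → v ∈ R → ∃ a a', H.Adj v a ∧ H.Adj v a' ∧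
        H.Adj a a' ∧ a ∈ R ∧ a' ∈ R := by
      intro R hR hvR
      obtain ⟨a, b, c, hab, hac, hbc, rfl⟩ := SimpleGraph.is3Clique_iff.1 hR
      simp only [mem_insert, mem_singleton] at hvR
      rcases hvR with rfl | rfl | rfl
      · exact ⟨b, c, hab, hac, hbc, by simp, by simp⟩
      · exact ⟨a, c, hab.symm, hbc, hac, by simp, by simp⟩
      · exact ⟨a, b, hac.symm, hbc.symm, hab, by simp, by simp⟩
    obtain ⟨a, a', k1, k2, k3, k4, k5⟩ := aux S hS hvS
    obtain ⟨b, b', l1, l2, l3, l4, l5⟩ := aux T hT hvT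
    refine h1 v a a' b b' k1 k2 k3 l1 l2 l3 ?_ ?_ ?_ ?_
    · intro h; exact k1.ne (huniq a k4 (h ▸ l4)).symm
    · intro h; exact k1.ne (huniq a k4 (h ▸ l5)).symm
    · intro h; exact k2.ne (huniq a' k5 (h ▸ l4)).symm
    · intro h; exact k2.ne (huniq a' k5 (h ▸ l5)).symm
  omega

theorem strEven_of {G : SimpleGraph V} {X W B : Finset V} {p q : V} {s a b : ℕ}
    (hX : X.card = s) (hW : W = Xᶜ) (hBW : B ⊆ W) (hBc : B.card = b) (hAc : (W \ B).card = a)
    (hcompl : ∀ x ∈ X, ∀ v, v ≠ x → G.Adj x v) (hpq : p ≠ q) (hp : p ∈ W) (hq : q ∈ W)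
    (hG : ∀ u ∈ W, ∀ v ∈ W, G.Adj u v ↔ ((u ∈ B ∧ v ∉ B) ∨ (u ∉ B ∧ v ∈ B) ∨
            (u = p ∧ v = q) ∨ (u = q ∧ v = p)))
    (hpB : p ∉ B) (hqB : q ∉ B) : StrEven G s a b := by
  have hWX : ∀ v, v ∈ W ↔ v ∉ X := by intro v; rw [hW, mem_compl]
  refine ⟨X, W \ B, B, hX, hAc, hBc, ?_, ?_, sdiff_disjoint, ?_, p, mem_sdiff.2 ⟨hp, hpB⟩, q,
    mem_sdiff.2 ⟨hq, hqB⟩, hpq, ?_⟩
  · rw [Finset.disjoint_left]
    intro v hv hv'
    exact (hWX v).1 (mem_sdiff.1 hv').1 hv
  · rw [Finset.disjoint_left]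
    intro v hv hv'
    exact (hWX v).1 (hBW hv') hv
  · intro v
    rw [mem_sdiff, hWX]
    tauto
  · intro u v
    have hpX := (hWX p).1 hp
    have hqX := (hWX q).1 hq
    have hBX : ∀ v, v ∈ B → v ∉ X := fun v hv => (hWX v).1 (hBW hv)
    rw [mem_sdiff, mem_sdiff, hWX, hWX]
    by_cases hu : u ∈ X
    · constructor
      · intro h; exact ⟨h.ne, Or.inl hu⟩
      · rintro ⟨h, -⟩; exact hcompl u hu v h.symm
    · by_cases hv : v ∈ X
      · constructor
        · intro h; exact ⟨h.ne, Or.inr (Or.inl hv)⟩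
        · rintro ⟨h, -⟩; exact (hcompl v hv u h).symm
      · rw [hG u ((hWX u).2 hu) v ((hWX v).2 hv)]
        constructor
        · rintro (h | h | ⟨rfl, rfl⟩ | ⟨rfl, rfl⟩)
          · refine ⟨fun e => h.2 (e ▸ h.1), ?_⟩
            tauto
          · refine ⟨fun e => h.1 (e ▸ h.2), ?_⟩
            tauto
          · refine ⟨hpq, ?_⟩
            tauto
          · refine ⟨hpq.symm, ?_⟩
            tauto
        · rintro ⟨-, h⟩
          tauto

omit [Fintype V] in
theorem swap_iff (W B : Finset V) {u v : V} (hu : u ∈ W) (hv : v ∈ W) (R1 R2 : Prop) :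
    ((u ∈ B ∧ v ∉ B) ∨ (u ∉ B ∧ v ∈ B) ∨ R1 ∨ R2) ↔
      ((u ∈ W \ B ∧ v ∉ W \ B) ∨ (u ∉ W \ B ∧ v ∈ W \ B) ∨ R1 ∨ R2) := by
  simp only [mem_sdiff, hu, hv, true_and]
  tauto

theorem feven : LinkX → CEven → CountX → TFmax → Inter2 → FEven := by
  intro hLink hCE hCount hT hI s hs κ hκ
  obtain ⟨K, n1, hK⟩ := hCE s hs
  obtain ⟨n2, hL⟩ := hLink s K (by omega)
  refine ⟨n1 + n2 + 200 * s + 200, fun V _ hn G X hHas hX hU => ?_⟩
  have hnn : ∃ n, n = Fintype.card V := ⟨_, rfl⟩
  obtain ⟨n, hndef⟩ := hnn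
  rw [← hndef] at hn ⊢
  have hctx : Ctx G s X := by
    refine ⟨hX, ?_⟩
    rw [hU]
    simp only [card_empty, Nat.cast_zero]
    positivity
  have hQ : ∀ v, v ∉ X → v ∈ Qs G X := by
    intro v hv
    by_contra hv'
    have : v ∈ Us G X := by
      simp only [Us, mem_filter, mem_univ, true_and]
      exact ⟨hv, hv'⟩
    rw [hU] at this
    simp at this
  obtain ⟨hlnk, -, -⟩ := hL V (by omega) G X hctx
  have hXne : X.Nonempty := by
    rw [← card_pos]; omega
  obtain ⟨x0, hx0⟩ := hXne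
  set H := within G Xᶜ with hHdef
  have hHX : ∀ u v, H.Adj u v → u ∉ X := fun u v h => mem_compl.1 h.2.1
  have hHW : ∀ u v, H.Adj u v → u ∈ Xᶜ := fun u v h => h.2.1
  obtain ⟨c1, c2⟩ := hK V (by omega) G X hctx H rfl
  have hnot : ¬ (Has Kind.P s G ∧ Has Kind.Ce s G) := by
    rintro ⟨h1, h2⟩
    rcases hκ with rfl | rfl
    · exact hHas h1
    · exact hHas h2
  have hint : ∀ S T : Finset V, H.IsNClique 3 S → H.IsNClique 3 T → S ≠ T →
      (S ∩ T).card = 2 := by
    intro S T hS hT' hST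
    refine inter_two ?_ ?_ S T hS hT' hST
    · intro v a a' b b' e1 e2 e3 e4 e5 e6 e7 e8 e9 e10
      exact hnot (c1 v a a' b b' e1 e2 e3 e4 e5 e6 (hQ a (hHX _ _ e1.symm))
        (hQ b (hHX _ _ e4.symm)) e7 e8 e9 e10)
    · intro p1 q1 r1 p2 q2 r2 e1 e2 e3 e4 e5 e6 e7
      exact hnot (c2 p1 q1 r1 p2 q2 r2 x0 x0 e1 e2 e3 e4 e5 e6 e7 (hQ _ (hHX _ _ e1.symm))
        (hQ _ (hHX _ _ e4.symm)) hx0 hx0 (hlnk _ (hQ _ (hHX _ _ e1)) _ hx0)
        (hlnk _ (hQ _ (hHX _ _ e4)) _ hx0))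
  have hWc : (Xᶜ).card = n - s := by rw [card_compl, hX, hndef]
  have hWne : (Xᶜ).Nonempty := by
    rw [← card_pos, hWc]; omega
  obtain ⟨hct, hct2⟩ := hCount V G X s hs hX H rfl
  have h6 := six_feven s n hs
  have hmm : ∃ m, m = n - s := ⟨_, rfl⟩
  obtain ⟨m, hm⟩ := hmm
  have hm1 : ∃ a, a = m / 2 := ⟨_, rfl⟩
  obtain ⟨a, ha⟩ := hm1
  have hm2 : ∃ b, b = (m + 1) / 2 := ⟨_, rfl⟩
  obtain ⟨b, hb⟩ := hm2
  rw [← hm, ← ha, ← hb] at h6 ⊢
  rw [← hm] at hWc
  have hmlarge : 199 * s + 200 ≤ m := by omega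
  have hab : a + b = m := by omega
  have hab1 : a ≤ b := by omega
  have hab2 : b ≤ a + 1 := by omega
  rw [hWc] at hct hct2
  -- lower bound for a * b
  have hq4 : m * m ≤ 4 * (a * b) + 1 := by
    rw [← hab]
    have : b = a ∨ b = a + 1 := by omega
    rcases this with h | h
    · rw [h]; nlinarith
    · rw [h]; nlinarith
  -- small cases
  have small : ∀ c d : ℕ, 2 * (oe H).card ≤ m * m + 32 → (ot H).card ≤ 64 →
      (ot G).card < 6 * Pool.Agent.Helper61.Tri.feven s n := by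
    intro c d h1 h2
    rw [h6]
    have h3 : 3 * s * (oe H).card * 2 ≤ 3 * s * (4 * (a * b) + 33) := by
      have : 3 * s * (oe H).card * 2 = 3 * s * (2 * (oe H).card) := by ring
      rw [this]
      exact Nat.mul_le_mul_left _ (by omega)
    have h4 : 3 * s * (4 * (a * b) + 33) = 12 * (s * (a * b)) + 99 * s := by ring
    have hbl : 99 * s + 100 ≤ b := by omega
    omega
  rcases hI V H (by omega) hint with ⟨p, q, hpq, hS⟩ | ⟨Q, hQc, hS⟩
  · by_cases hpq' : H.Adj p q
    · obtain ⟨D, hD, k1, k2, k3⟩ := mainA hT H Xᶜ hHW p q hpq' hS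
      rw [hWc] at hD k2 k3
      obtain ⟨a1, a2⟩ := arith_max s a b D m hs hab hab1 hab2 hD
      have k2' : 3 * s * (oe H).card ≤ 6 * (s * (D * (m - D))) + 6 * s := by
        calc 3 * s * (oe H).card ≤ 3 * s * (2 * (D * (m - D)) + 2) := Nat.mul_le_mul_left _ k2
          _ = _ := by ring
      refine ⟨by rw [h6]; omega, fun heq => ?_⟩
      rw [h6] at heq
      have hDb : D = b := a2 (by omega)
      have e1 : (ot H).card = 6 * D := by omega
      have e2' : 3 * s * (oe H).card = 3 * s * (2 * (D * (m - D)) + 2) := by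
        have : 3 * s * (2 * (D * (m - D)) + 2) = 6 * (s * (D * (m - D))) + 6 * s := by ring
        rw [this]
        omega
      have e2 : (oe H).card = 2 * (D * (m - D)) + 2 :=
        Nat.eq_of_mul_eq_mul_left (by omega) e2'
      obtain ⟨B, hBW, hBc, hstr, hcase⟩ := k3 e1 e2
      have hcompl := hct2 (by omega) (by omega)
      have hGH : ∀ u ∈ Xᶜ, ∀ v ∈ Xᶜ, (G.Adj u v ↔ H.Adj u v) := fun u hu v hv =>
        ⟨fun h => ⟨h, hu, hv⟩, fun h => h.1⟩
      have hpW := hHW _ _ hpq'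
      have hqW := hHW _ _ hpq'.symm
      have hAc : (Xᶜ \ B).card = m - b := by
        rw [card_sdiff_of_subset hBW, hWc, hBc, hDb]
      rcases hcase with ⟨hpB, hqB⟩ | ⟨hpB, hqB, hcA⟩
      · exact strEven_of hX rfl hBW (by rw [hBc, hDb]) (by rw [hAc]; omega) hcompl hpq hpW hqW
          (fun u hu v hv => (hGH u hu v hv).trans (hstr u hu v hv)) hpB hqB
      · have hbb : m - b = b := by rw [← hAc, hcA, hDb]
        have hBsub : Xᶜ \ (Xᶜ \ B) = B := by
          rw [sdiff_sdiff_right_self]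
          exact inf_eq_right.2 hBW
        refine strEven_of (B := Xᶜ \ B) hX rfl sdiff_subset (by rw [hAc]; omega)
          (by rw [hBsub, hBc, hDb]; omega) hcompl hpq hpW hqW
          (fun u hu v hv => (hGH u hu v hv).trans ((hstr u hu v hv).trans ?_))
          (fun h => (mem_sdiff.1 h).2 hpB) (fun h => (mem_sdiff.1 h).2 hqB)
        exact swap_iff _ _ hu hv _ _
    · -- no triangle
      have hno : ∀ S : Finset V, ¬ H.IsNClique 3 S := by
        intro S hSc
        obtain ⟨h1, h2⟩ := hS S hSc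
        exact hpq' (hSc.1 h1 h2 hpq)
      have hTF : TF H := fun u v w h1 h2 h3 => hno _ (clique3 h1 h2 h3)
      have h1 := oe_tf hT H Xᶜ hWne hTF hHW
      rw [hWc] at h1
      have h2 : (ot H).card = 0 := by
        rw [card_eq_zero]
        apply Finset.eq_empty_of_forall_notMem
        intro x hx
        simp only [ot, mem_filter, mem_univ, true_and] at hx
        exact hTF _ _ _ hx.1 hx.2.1 hx.2.2
      have h3 := small 0 0 (by omega) (by omega)
      exact ⟨h3.le, fun h => absurd h h3.ne⟩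
  · obtain ⟨h1, h2⟩ := mainB hT H Xᶜ hWne hHW Q hQc hS
    rw [hWc] at h1
    have h3 := small 0 0 h1 h2
    exact ⟨h3.le, fun h => absurd h h3.ne⟩

end

end Pool.Agent.Helper32.Tri
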